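import Pool.Agent.Helper79.HC.Defs

/-!
# HC-14: the remaining cells (helper16)
-/

set_option autoImplicit false

namespace Pool.Agent.Helper79.HC

open Finset

theorem h16_inj (A : ℤ) (s : ℕ) (hs : 0 < s) :
    Function.Injective (fun t : ℕ => (((t % s : ℕ) : ℤ), A + 3 + ((t / s : ℕ) : ℤ))) := by
  intro t t' h
  simp only [Prod.mk.injEq, Nat.cast_inj, add_right_inj] at h
  rw [← Nat.div_add_mod t s, ← Nat.div_add_mod t' s, h.1, h.2]

/-- HC-14, first part -/
theorem card_restK (A : ℤ) (s M : ℕ) (hs : 0 < s) : (restK A s M).card = M := by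
  unfold restK
  rw [card_image_of_injective _ (h16_inj A s hs), card_range]

theorem h16_mem (A : ℤ) {s M x y : ℕ} (hx : x < s) (h : y * s + x < M) :
    (((x : ℕ) : ℤ), A + 3 + ((y : ℕ) : ℤ)) ∈ restK A s M := by
  unfold restK
  rw [mem_image]
  refine ⟨y * s + x, mem_range.2 h, ?_⟩
  have h1 : (y * s + x) % s = x := by
    rw [Nat.mul_comm, Nat.mul_add_mod]
    exact Nat.mod_eq_of_lt hx
  have h2 : (y * s + x) / s = y := by
    rw [Nat.mul_comm, Nat.mul_add_div (by omega), Nat.div_eq_of_lt hx, add_zero]
  rw [h1, h2]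

/-- interior cells have no exterior side -/
theorem h16_interior (A : ℤ) {s M x y : ℕ} (hs : 0 < s) (hx0 : 1 ≤ x) (hx1 : x + 2 ≤ s)
    (hy : 1 ≤ y) (hM : y * s + x + s < M) (k : Fin 6) :
    (((x : ℕ) : ℤ), A + 3 + ((y : ℕ) : ℤ)) + dl k ∈ restK A s M := by
  obtain ⟨x, rfl⟩ : ∃ x', x = x' + 1 := ⟨x - 1, by omega⟩
  obtain ⟨y, rfl⟩ : ∃ y', y = y' + 1 := ⟨y - 1, by omega⟩
  have e1 : (y + 1) * s = y * s + s := by ring
  have e2 : (y + 1 + 1) * s = y * s + s + s := by ring
  have key : ∀ (x' y' : ℕ) (c : ℤ × ℤ), x' < s → y' * s + x' < M →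
      c = (((x' : ℕ) : ℤ), A + 3 + ((y' : ℕ) : ℤ)) → c ∈ restK A s M := by
    intro x' y' c h1 h2 h3
    rw [h3]
    exact h16_mem A h1 h2
  fin_cases k
  · refine key (x + 2) (y + 1) _ (by omega) (by omega) ?_
    simp only [dl]
    ext <;> simp <;> ring
  · refine key (x + 1) (y + 2) _ (by omega) (by rw [show y + 2 = y + 1 + 1 by rfl]; omega) ?_
    simp only [dl]
    ext <;> simp <;> ring
  · refine key x (y + 2) _ (by omega) (by rw [show y + 2 = y + 1 + 1 by rfl]; omega) ?_
    simp only [dl]
    ext <;> simp <;> ring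
  · refine key x (y + 1) _ (by omega) (by omega) ?_
    simp only [dl]
    ext <;> simp
  · refine key (x + 1) y _ (by omega) (by omega) ?_
    simp only [dl]
    ext
    · simp
    · simp
      ring
  · refine key (x + 2) y _ (by omega) (by omega) ?_
    simp only [dl]
    ext <;> simp <;> ring

/-- the boundary indices -/
def h16Bad (s M : ℕ) : Finset ℕ :=
  ((range s).image (fun i => i * s) ∪ (range s).image (fun i => i * s + (s - 1))) ∪
    (range s ∪ Ico (M - s) M)

theorem h16_bad_card (s M : ℕ) : (h16Bad s M).card ≤ 4 * s := by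
  unfold h16Bad
  refine (card_union_le _ _).trans ?_
  have h1 := card_union_le ((range s).image (fun i => i * s))
    ((range s).image (fun i => i * s + (s - 1)))
  have h2 := card_union_le (range s) (Ico (M - s) M)
  have h3 := card_image_le (s := range s) (f := fun i => i * s)
  have h4 := card_image_le (s := range s) (f := fun i => i * s + (s - 1))
  rw [card_range] at h3 h4
  rw [card_range, Nat.card_Ico] at h2
  omega

open Classical in
/-- HC-14, second part -/
theorem ext_restK (A : ℤ) (s M : ℕ) (hs : 0 < s) (hM : M ≤ s ^ 2) :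
    ∑ c ∈ restK A s M, (Finset.univ.filter (fun k => c + dl k ∉ restK A s M)).card ≤
      60 * s := by
  have h1 : ∑ c ∈ restK A s M, (Finset.univ.filter (fun k => c + dl k ∉ restK A s M)).card =
      ∑ t ∈ range M, (Finset.univ.filter (fun k =>
        (((t % s : ℕ) : ℤ), A + 3 + ((t / s : ℕ) : ℤ)) + dl k ∉ restK A s M)).card := by
    conv_lhs => rw [restK]
    rw [sum_image fun _ _ _ _ h => h16_inj A s hs h]
    rfl
  rw [h1]
  have h2 : ∀ t ∈ range M, (Finset.univ.filter (fun k =>
        (((t % s : ℕ) : ℤ), A + 3 + ((t / s : ℕ) : ℤ)) + dl k ∉ restK A s M)).card ≤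
      if t ∈ h16Bad s M then 6 else 0 := by
    intro t ht
    rw [mem_range] at ht
    split_ifs with hb
    · refine (card_filter_le _ _).trans ?_
      simp
    · rw [Nat.le_zero, card_eq_zero, filter_eq_empty_iff]
      intro k _ hk
      apply hk
      unfold h16Bad at hb
      simp only [mem_union, mem_image, mem_range, mem_Ico, not_or, not_exists, not_and] at hb
      obtain ⟨⟨hb1, hb2⟩, hb3, hb4⟩ := hb
      have hdm := Nat.div_add_mod t s
      have hmod := Nat.mod_lt t hs
      have hq : t / s < s := by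
        rw [Nat.div_lt_iff_lt_mul hs, ← sq]
        omega
      have hc : t / s * s = s * (t / s) := Nat.mul_comm _ _
      have g1 : t % s ≠ 0 := by
        intro h
        apply hb1 (t / s) hq
        omega
      have g2 : t % s ≠ s - 1 := by
        intro h
        apply hb2 (t / s) hq
        omega
      have g3 : 1 ≤ t / s := by
        rw [Nat.le_div_iff_mul_le hs]
        omega
      exact h16_interior A hs (by omega) (by omega) g3 (by omega) k
  refine (sum_le_sum h2).trans ?_
  rw [← sum_filter, sum_const, smul_eq_mul]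
  have h3 : ((range M).filter (fun t => t ∈ h16Bad s M)).card ≤ (h16Bad s M).card := by
    apply card_le_card
    intro t ht
    exact (mem_filter.1 ht).2
  have h4 := h16_bad_card s M
  omega

end Pool.Agent.Helper79.HC
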